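import Mathlib
import Pool.Agent.Results.MP_150402_gt.ArensFort

/-!
# For every non-indiscrete `Z` the topology `t₁^Z` on `C(Y, Z)` can fail to be regular

`Y` is the Arens–Fort space. The case in which `Z` is the discrete two-point space is
`Pool.Agent.Results.MP_150402_gt.ArensFort`.
-/

namespace Pool.Agent.Results.MP_8267fa_gt.AllTargets

open Set Topology TopologicalSpace

universe u v

section Definitions

variable (Y : Type u) (Z : Type v) [TopologicalSpace Y] [TopologicalSpace Z]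

/-- `𝒪_Z(Y)`: the preimages of open subsets of `Z` under continuous maps. -/
def OZ : Set (Set Y) := {W | ∃ (f : C(Y, Z)) (U : Set Z), IsOpen U ∧ W = f ⁻¹' U}

/-- `τ₁^Z`: families `ℍ` of open subsets of `Y` satisfying (α) and (β). -/
def ZScottOpen (ℍ : Set (Set Y)) : Prop :=
  (∀ W ∈ ℍ, IsOpen W) ∧ (∀ W ∈ ℍ, W ∈ OZ Y Z → ∀ V, IsOpen V → W ⊆ V → V ∈ ℍ) ∧
    ∀ 𝒲 ⊆ OZ Y Z, ⋃₀ 𝒲 ∈ ℍ → ∃ ℱ ⊆ 𝒲, ℱ.Finite ∧ ⋃₀ ℱ ∈ ℍ

/-- Scott open families of open subsets of `Y`. -/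
def ScottOpen (ℍ : Set (Set Y)) : Prop :=
  (∀ W ∈ ℍ, IsOpen W) ∧ (∀ W ∈ ℍ, ∀ V, IsOpen V → W ⊆ V → V ∈ ℍ) ∧
    ∀ 𝒲 : Set (Set Y), (∀ W ∈ 𝒲, IsOpen W) → ⋃₀ 𝒲 ∈ ℍ → ∃ ℱ ⊆ 𝒲, ℱ.Finite ∧ ⋃₀ ℱ ∈ ℍ

variable {Y Z} in
/-- `(ℍ, U)`. -/
def pre (ℍ : Set (Set Y)) (U : Set Z) : Set C(Y, Z) := {f | f ⁻¹' U ∈ ℍ}

/-- The topology `t₁^Z` on `C(Y, Z)`. -/
abbrev t1Z : TopologicalSpace C(Y, Z) :=
  generateFrom {S | ∃ ℍ U, ZScottOpen Y Z ℍ ∧ IsOpen U ∧ S = pre ℍ U}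

/-- The Isbell topology on `C(Y, Z)`. -/
abbrev tIs : TopologicalSpace C(Y, Z) :=
  generateFrom {S | ∃ ℍ U, ScottOpen Y ℍ ∧ IsOpen U ∧ S = pre ℍ U}

end Definitions

open Pool.Agent.Results.MP_150402_gt.ArensFort (AF HH HH_scott not_regular)

section

variable {Z : Type v} [TopologicalSpace Z] {U₁ : Set Z} {z₀ z₁ : Z}

/-- The map `Bool → Z` with values `z₀, z₁`. -/
def zz (z₀ z₁ : Z) : C(Bool, Z) := ⟨fun b => if b then z₁ else z₀, continuous_of_discreteTopology⟩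

lemma zz_preimage (h₀ : z₀ ∉ U₁) (h₁ : z₁ ∈ U₁) : (zz z₀ z₁) ⁻¹' U₁ = {true} := by
  ext b
  cases b <;> simp [zz, h₀, h₁]

/-- `𝒪_2(Y) ⊆ 𝒪_Z(Y)`. -/
lemma OZ_bool_subset (hU : IsOpen U₁) (h₀ : z₀ ∉ U₁) (h₁ : z₁ ∈ U₁) :
    Pool.Agent.Results.MP_150402_gt.ArensFort.OZ AF Bool ⊆ OZ AF Z := by
  classical
  rintro W ⟨f, U, -, rfl⟩
  refine ⟨(zz z₀ z₁).comp ((⟨fun b => decide (b ∈ U), continuous_of_discreteTopology⟩ :
    C(Bool, Bool)).comp f), U₁, hU, ?_⟩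
  ext y
  by_cases hy : f y ∈ U <;> simp [zz, hy, h₀, h₁]

lemma zScott_bool (hU : IsOpen U₁) (h₀ : z₀ ∉ U₁) (h₁ : z₁ ∈ U₁) {ℍ : Set (Set AF)}
    (h : ZScottOpen AF Z ℍ) :
    Pool.Agent.Results.MP_150402_gt.ArensFort.ZScottOpen AF Bool ℍ := by
  have hsub := OZ_bool_subset hU h₀ h₁
  exact ⟨h.1, fun W hW hWO => h.2.1 W hW (hsub hWO), fun 𝒲 h𝒲 hu => h.2.2 𝒲 (h𝒲.trans hsub) hu⟩

lemma scott_zScott {Y : Type u} [TopologicalSpace Y] {ℍ : Set (Set Y)} (h : ScottOpen Y ℍ) :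
    ZScottOpen Y Z ℍ :=
  ⟨h.1, fun W hW _ => h.2.1 W hW, fun 𝒲 h𝒲 hu => h.2.2 𝒲 (fun W hW => by
    obtain ⟨f, U, hU, rfl⟩ := h𝒲 hW
    exact hU.preimage f.continuous) hu⟩

lemma not_regular_general (hU : IsOpen U₁) (h₀ : z₀ ∉ U₁) (h₁ : z₁ ∈ U₁)
    {𝒮 : Set (Set C(AF, Z))} (h : ∀ S ∈ 𝒮, ∃ ℍ U, ZScottOpen AF Z ℍ ∧ S = pre ℍ U)
    (hmem : pre HH U₁ ∈ 𝒮) : ¬ @RegularSpace C(AF, Z) (generateFrom 𝒮) := by
  intro hreg
  let i : C(AF, Bool) → C(AF, Z) := fun f => (zz z₀ z₁).comp f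
  have hpre : ∀ (ℍ : Set (Set AF)) (U : Set Z), i ⁻¹' (pre ℍ U) =
      Pool.Agent.Results.MP_150402_gt.ArensFort.pre ℍ ((zz z₀ z₁) ⁻¹' U) := fun ℍ U => rfl
  have hind := @regularSpace_induced _ _ (generateFrom 𝒮) hreg i
  rw [induced_generateFrom_eq] at hind
  refine not_regular ?_ ?_ hind
  · rintro _ ⟨S, hS, rfl⟩
    obtain ⟨ℍ, U, hℍ, rfl⟩ := h S hS
    exact ⟨ℍ, _, zScott_bool hU h₀ h₁ hℍ, hpre ℍ U⟩
  · refine ⟨_, hmem, ?_⟩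
    rw [hpre, zz_preimage h₀ h₁]

end

lemma not_t1Z (Z : Type v) [TopologicalSpace Z] (h : ∃ U : Set Z, IsOpen U ∧ U.Nonempty ∧ U ≠ univ) :
    ¬ @RegularSpace C(AF, Z) (t1Z AF Z) ∧ ¬ @RegularSpace C(AF, Z) (tIs AF Z) := by
  obtain ⟨U₁, hU, ⟨z₁, h₁⟩, hne⟩ := h
  obtain ⟨z₀, h₀⟩ := (ne_univ_iff_exists_notMem _).1 hne
  refine ⟨not_regular_general hU h₀ h₁ ?_ ⟨HH, U₁, scott_zScott HH_scott, hU, rfl⟩,
    not_regular_general hU h₀ h₁ ?_ ⟨HH, U₁, HH_scott, hU, rfl⟩⟩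
  · rintro S ⟨ℍ, U, hℍ, -, rfl⟩
    exact ⟨ℍ, U, hℍ, rfl⟩
  · rintro S ⟨ℍ, U, hℍ, -, rfl⟩
    exact ⟨ℍ, U, scott_zScott hℍ, rfl⟩

/-- **Theorem.** There is a countable normal Hausdorff space `Y` (the Arens–Fort space) such that,
for every topological space `Z` with an open set different from `∅` and `Z`, the space `C(Y, Z)`
with the topology `t₁^Z` is neither regular nor completely regular, and `C(Y, Z)` with the Isbell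
topology is not regular either. In particular `Z = ℝ` is a completely regular space for which
`C(Y, Z)` with `t₁^Z` is not completely regular. -/
theorem result : ∃ (Y : Type) (_ : TopologicalSpace Y), Countable Y ∧ T4Space Y ∧
    (∀ (Z : Type v) [TopologicalSpace Z], (∃ U : Set Z, IsOpen U ∧ U.Nonempty ∧ U ≠ univ) →
      ¬ @RegularSpace C(Y, Z) (t1Z Y Z) ∧ ¬ @CompletelyRegularSpace C(Y, Z) (t1Z Y Z) ∧
        ¬ @RegularSpace C(Y, Z) (tIs Y Z)) ∧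
    CompletelyRegularSpace ℝ ∧ ¬ @CompletelyRegularSpace C(Y, ℝ) (t1Z Y ℝ) := by
  have key : ∀ (Z : Type v) [TopologicalSpace Z], (∃ U : Set Z, IsOpen U ∧ U.Nonempty ∧ U ≠ univ) →
      ¬ @RegularSpace C(AF, Z) (t1Z AF Z) ∧ ¬ @CompletelyRegularSpace C(AF, Z) (t1Z AF Z) ∧
        ¬ @RegularSpace C(AF, Z) (tIs AF Z) := by
    intro Z _ h
    refine ⟨(not_t1Z Z h).1, fun hc => (not_t1Z Z h).1 ?_, (not_t1Z Z h).2⟩
    let _ := t1Z AF Z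
    exact inferInstance
  refine ⟨AF, inferInstance, inferInstance, inferInstance, key, inferInstance, fun hc => ?_⟩
  refine (not_t1Z ℝ ⟨Ioi 0, isOpen_Ioi, ⟨1, by simp⟩, fun h => ?_⟩).1 ?_
  · have : (0 : ℝ) ∈ Ioi (0 : ℝ) := h ▸ mem_univ _
    simp at this
  · let _ := t1Z AF ℝ
    exact inferInstance

end Pool.Agent.Results.MP_8267fa_gt.AllTargets
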